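import Pool.Agent.Q112.NTC.Defs

/-!
# `f(r) = ∞` for all `r ≥ 3`
-/

namespace Pool.Agent.Results.MP_2c613a_co.Infinite

open Q112.NTC Finset

/-- The vertices: one special vertex (side `0`) and `s` further sides of size `N`. -/
abbrev Vx (s N : ℕ) : Type := Option (Fin s × Fin N)

/-- The `j`-th edge. -/
def edge (s N : ℕ) (j : Fin N) : Finset (Vx s N) :=
  insert none ((univ : Finset (Fin s)).image fun i => some (i, j))

lemma mem_edge_some {s N : ℕ} {j : Fin N} {p : Fin s × Fin N} :
    (some p : Vx s N) ∈ edge s N j ↔ p.2 = j := by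
  obtain ⟨i, k⟩ := p
  simp only [edge, mem_insert, reduceCtorEq, mem_image, mem_univ, true_and, Option.some.injEq,
    Prod.mk.injEq, false_or]
  constructor
  · rintro ⟨_, _, rfl⟩; rfl
  · rintro rfl; exact ⟨i, rfl, rfl⟩

/-- The hypergraph. -/
def hyp (s N : ℕ) (hN : 0 < N) : PHyp (s + 1) where
  V := Vx s N
  side v := match v with
    | none => 0
    | some p => p.1.succ
  E := univ.image (edge s N)
  transversal := by
    intro e he i
    rw [mem_image] at he
    obtain ⟨j, _, rfl⟩ := he
    refine Fin.cases ?_ (fun i' => ?_) i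
    · refine ⟨none, ⟨by simp [edge], rfl⟩, ?_⟩
      rintro (_ | p) ⟨_, h⟩
      · rfl
      · exact absurd h (Fin.succ_ne_zero _)
    · refine ⟨some (i', j), ⟨mem_edge_some.2 rfl, rfl⟩, ?_⟩
      rintro (_ | ⟨a, b⟩) ⟨h1, h⟩
      · exact absurd h.symm (Fin.succ_ne_zero _)
      · have h2 : a = i' := Fin.succ_injective _ h
        have h3 : b = j := mem_edge_some.1 h1
        rw [h2, h3]
  covered := by
    rintro (_ | ⟨a, b⟩)
    · exact ⟨edge s N ⟨0, hN⟩, mem_image_of_mem _ (mem_univ _), by simp [edge]⟩
    · exact ⟨edge s N b, mem_image_of_mem _ (mem_univ _), mem_edge_some.2 rfl⟩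

lemma hyp_intersecting (s N : ℕ) (hN : 0 < N) : Intersecting (hyp s N hN) := by
  intro e he g hg
  have he' := mem_image.1 (show (e : Finset (Vx s N)) ∈ univ.image (edge s N) from he)
  have hg' := mem_image.1 (show (g : Finset (Vx s N)) ∈ univ.image (edge s N) from hg)
  obtain ⟨j, _, rfl⟩ := he'
  obtain ⟨j', _, rfl⟩ := hg'
  refine ⟨none, ?_⟩
  rw [mem_inter]
  exact ⟨mem_insert_self _ _, mem_insert_self _ _⟩

lemma none_notMem (s N : ℕ) (hN : 0 < N) {T : Finset (Vx s N)}
    (hT : NontrivialCover (hyp s N hN) T) : (none : Vx s N) ∉ T := by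
  intro h
  apply hT.2.2 0
  intro v hv
  have hv' : (hyp s N hN).side v = 0 := (mem_filter.1 hv).2
  match v, hv' with
  | none, _ => exact h
  | some p, hv' => exact absurd hv' (Fin.succ_ne_zero _)

/-- Every non-trivial cover has at least `N` vertices. -/
lemma card_ge (s N : ℕ) (hN : 0 < N) {T : Finset (Vx s N)}
    (hT : NontrivialCover (hyp s N hN) T) : N ≤ T.card := by
  have hnone := none_notMem s N hN hT
  have h1 : ∀ j : Fin N, ∃ p : Fin s × Fin N, p.2 = j ∧ (some p : Vx s N) ∈ T := by
    intro j
    obtain ⟨v, hv⟩ := hT.1 (edge s N j) (mem_image_of_mem _ (mem_univ _))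
    rw [mem_inter] at hv
    match v, hv with
    | none, hv => exact absurd hv.2 hnone
    | some p, hv => exact ⟨p, mem_edge_some.1 hv.1, hv.2⟩
  choose g hg1 hg2 using h1
  calc N = (univ : Finset (Fin N)).card := by simp
    _ ≤ T.card := by
      apply card_le_card_of_injOn (fun j => (some (g j) : Vx s N))
      · intro j _
        exact hg2 j
      · intro j _ j' _ h
        have h2 : g j = g j' := Option.some_injective _ h
        rw [← hg1 j, ← hg1 j', h2]

lemma exists_cover (s N : ℕ) (hs : 2 ≤ s) (hN : 2 ≤ N) (hN0 : 0 < N) :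
    ∃ T : Finset (hyp s N hN0).V, NontrivialCover (hyp s N hN0) T := by
  -- the vertex `(0, 0)` and the vertices `(1, j)`, `j ≠ 0`
  let g : Fin N → Vx s N := fun j =>
    if (j : ℕ) = 0 then some (⟨0, by omega⟩, j) else some (⟨1, by omega⟩, j)
  refine ⟨(univ.image g : Finset (Vx s N)), ?_, ?_, ?_⟩
  · intro e he
    have he' := mem_image.1 (show (e : Finset (Vx s N)) ∈ univ.image (edge s N) from he)
    obtain ⟨j, _, rfl⟩ := he'
    refine ⟨g j, ?_⟩
    rw [mem_inter]
    refine ⟨?_, mem_image_of_mem _ (mem_univ _)⟩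
    simp only [g]
    split_ifs
    · exact mem_edge_some.2 rfl
    · exact mem_edge_some.2 rfl
  · intro e he hsub
    have he' := mem_image.1 (show (e : Finset (Vx s N)) ∈ univ.image (edge s N) from he)
    obtain ⟨j, _, rfl⟩ := he'
    have h1 := hsub (mem_insert_self _ _ : (none : Vx s N) ∈ edge s N j)
    have h2 := mem_image.1 h1
    obtain ⟨k, _, hk⟩ := h2
    simp only [g] at hk
    split_ifs at hk
  · intro i hsub
    have hmem : ∀ v : Vx s N, (hyp s N hN0).side v = i → ∃ k, g k = v := by
      intro v hv
      have h1 := hsub (mem_filter.2 ⟨mem_univ _, hv⟩)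
      have h2 := mem_image.1 h1
      obtain ⟨k, _, hk⟩ := h2
      exact ⟨k, hk⟩
    revert hmem
    refine Fin.cases ?_ (fun i' => ?_) i
    · intro hmem
      obtain ⟨k, hk⟩ := hmem none rfl
      simp only [g] at hk
      split_ifs at hk
    · intro hmem
      by_cases hi' : (i' : ℕ) = 0
      · -- the vertex `(i', 1)` is missing
        obtain ⟨k, hk⟩ := hmem (some (i', ⟨1, by omega⟩)) rfl
        simp only [g] at hk
        split_ifs at hk with h
        · simp only [Option.some.injEq, Prod.mk.injEq] at hk
          have h3 := congrArg Fin.val hk.2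
          simp only at h3
          omega
        · simp only [Option.some.injEq, Prod.mk.injEq] at hk
          have h3 := congrArg Fin.val hk.1
          simp only at h3
          omega
      · -- the vertex `(i', 0)` is missing
        obtain ⟨k, hk⟩ := hmem (some (i', ⟨0, by omega⟩)) rfl
        simp only [g] at hk
        split_ifs at hk with h
        · simp only [Option.some.injEq, Prod.mk.injEq] at hk
          have h3 := congrArg Fin.val hk.1
          simp only at h3
          omega
        · simp only [Option.some.injEq, Prod.mk.injEq] at hk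
          have h3 := congrArg Fin.val hk.2
          simp only at h3
          omega

/-- **Main result.** `f(r) = ∞` for every `r ≥ 3`.  For `r = 2` no intersecting `r`-partite
hypergraph has a non-trivial vertex cover. -/
theorem result : (∀ r : ℕ, 3 ≤ r → f r = ⊤) ∧
    ∀ H : PHyp 2, Intersecting H → ¬ ∃ T, NontrivialCover H T := by
  constructor
  · intro r hr
    obtain ⟨s, rfl⟩ : ∃ s, r = s + 1 := ⟨r - 1, by omega⟩
    rw [ENat.eq_top_iff_forall_ge]
    intro m
    have h0 : 0 < m + 2 := by omega
    have hex := exists_cover s (m + 2) (by omega) (by omega) h0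
    have h1 : m ≤ tauStar (hyp s (m + 2) h0) := by
      unfold tauStar
      apply le_csInf
      · obtain ⟨T, hT⟩ := hex
        exact ⟨_, T, hT, rfl⟩
      · rintro _ ⟨T, hT, rfl⟩
        exact le_trans (Nat.le_add_right m 2) (card_ge s (m + 2) h0 hT)
    unfold f
    refine le_trans ?_ (le_iSup _ (hyp s (m + 2) h0))
    refine le_trans ?_ (le_iSup _ (hyp_intersecting s (m + 2) h0))
    refine le_trans ?_ (le_iSup _ hex)
    exact_mod_cast h1
  · rintro H hint ⟨T, hcov, hedge, hside⟩
    -- there is an edge
    have hne : H.E.Nonempty := by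
      by_contra h
      rw [not_nonempty_iff_eq_empty] at h
      apply hside 0
      intro v _
      obtain ⟨e, he, _⟩ := H.covered v
      rw [h] at he
      simp at he
    obtain ⟨e0, he0⟩ := hne
    -- a vertex of `e0` in `T` and one outside
    obtain ⟨x, hx⟩ := hcov e0 he0
    rw [mem_inter] at hx
    obtain ⟨y, hy, hyT⟩ := Finset.not_subset.1 (hedge e0 he0)
    have hxy : H.side x ≠ H.side y := by
      intro h
      obtain ⟨v, _, hv⟩ := H.transversal e0 he0 (H.side y)
      have h1 := hv x ⟨hx.1, h⟩
      have h2 := hv y ⟨hy, rfl⟩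
      exact hyT (by rw [h2, ← h1]; exact hx.2)
    -- a vertex of the side of `x` outside `T`
    obtain ⟨z, hz, hzT⟩ := Finset.not_subset.1 (hside (H.side x))
    have hz' : H.side z = H.side x := (mem_filter.1 hz).2
    obtain ⟨e1, he1, hze1⟩ := H.covered z
    obtain ⟨w, hw⟩ := hcov e1 he1
    rw [mem_inter] at hw
    have hwz : H.side w ≠ H.side z := by
      intro h
      obtain ⟨v, _, hv⟩ := H.transversal e1 he1 (H.side z)
      have h1 := hv w ⟨hw.1, h⟩
      have h2 := hv z ⟨hze1, rfl⟩
      exact hzT (by rw [h2, ← h1]; exact hw.2)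
    -- the common vertex of `e0` and `e1`
    obtain ⟨u, hu⟩ := hint e0 he0 e1 he1
    rw [mem_inter] at hu
    have hsides : H.side u = H.side x ∨ H.side u = H.side y := by
      have h1 := hxy
      revert h1
      generalize H.side x = a
      generalize H.side y = b
      generalize H.side u = c
      revert a b c
      decide
    rcases hsides with h | h
    · -- `u = x` and `u = z`
      obtain ⟨v, _, hv⟩ := H.transversal e0 he0 (H.side x)
      obtain ⟨v', _, hv'⟩ := H.transversal e1 he1 (H.side x)
      have h1 : u = x := (hv u ⟨hu.1, h⟩).trans (hv x ⟨hx.1, rfl⟩).symm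
      have h2 : u = z := (hv' u ⟨hu.2, h⟩).trans (hv' z ⟨hze1, hz'⟩).symm
      exact hzT (by rw [← h2, h1]; exact hx.2)
    · obtain ⟨v, _, hv⟩ := H.transversal e0 he0 (H.side y)
      obtain ⟨v', _, hv'⟩ := H.transversal e1 he1 (H.side y)
      have hwy : H.side w = H.side y := by
        have h1 := hxy
        have h3 := hwz
        rw [hz'] at h3
        revert h1 h3
        generalize H.side x = a
        generalize H.side y = b
        generalize H.side w = c
        revert a b c
        decide
      have h1 : u = y := (hv u ⟨hu.1, h⟩).trans (hv y ⟨hy, rfl⟩).symm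
      have h2 : u = w := (hv' u ⟨hu.2, h⟩).trans (hv' w ⟨hw.1, hwy⟩).symm
      exact hyT (by rw [← h1, h2]; exact hw.2)

end Pool.Agent.Results.MP_2c613a_co.Infinite
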