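import Pool.Agent.Q112.NTC.Defs

/-!
# A quadratic upper bound when no side consists of a single vertex
-/

namespace Pool.Agent.Results.MP_2c613a_co.QuadraticBound

open Q112.NTC Finset

variable {r : ℕ} {H : PHyp r}

lemma card_edge {e : Finset H.V} (he : e ∈ H.E) : e.card = r := by
  have h : e.image H.side = univ := by
    ext i
    simp only [mem_image, mem_univ, iff_true]
    obtain ⟨v, hv, _⟩ := H.transversal e he i
    exact ⟨v, hv⟩
  have hinj : Set.InjOn H.side e := by
    intro x hx y hy hxy
    obtain ⟨v, _, hv⟩ := H.transversal e he (H.side y)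
    exact (hv x ⟨hx, hxy⟩).trans (hv y ⟨hy, rfl⟩).symm
  rw [← card_image_of_injOn hinj, h, card_univ, Fintype.card_fin]

/-- A subset of a non-trivial cover which is a cover is non-trivial. -/
lemma nontrivial_of_subset {T T' : Finset H.V} (hT : NontrivialCover H T) (h : T' ⊆ T)
    (hc : IsCover H T') : NontrivialCover H T' :=
  ⟨hc, fun e he h' => hT.2.1 e he (h'.trans h), fun i h' => hT.2.2 i (h'.trans h)⟩

lemma tauStar_le {T : Finset H.V} (hT : NontrivialCover H T) : tauStar H ≤ T.card :=
  Nat.sInf_le ⟨T, hT, rfl⟩

/-- Number of members of a family `M` with pairwise disjoint traces on `T` that are met inside `T`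
by a set `A`. -/
lemma count_met (M : Finset (Finset H.V)) (T A : Finset H.V)
    (hdis : ∀ e ∈ M, ∀ f ∈ M, e ≠ f → Disjoint (e ∩ T) (f ∩ T)) :
    (M.filter fun e => ((e ∩ T) ∩ A).Nonempty).card ≤ A.card := by
  have hsub : (M.filter fun e => ((e ∩ T) ∩ A).Nonempty) ⊆
      A.biUnion fun v => M.filter fun e => v ∈ e ∩ T := by
    intro e he
    rw [mem_filter] at he
    obtain ⟨v, hv⟩ := he.2
    rw [mem_inter] at hv
    rw [mem_biUnion]
    exact ⟨v, hv.2, mem_filter.2 ⟨he.1, hv.1⟩⟩
  refine (card_le_card hsub).trans ?_
  have h1 := card_biUnion_le_card_mul A (fun v => M.filter fun e => v ∈ e ∩ T) 1 (by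
    intro v _
    rw [card_le_one]
    intro e he f hf
    rw [mem_filter] at he hf
    by_contra hne
    exact (Finset.disjoint_left.1 (hdis e he.1 f hf.1 hne)) he.2 hf.2)
  rwa [mul_one] at h1

/-- **Main result.** Let `H` be an intersecting `r`-partite hypergraph in which no side consists of
a single vertex.  If `H` has a non-trivial vertex cover, then it has one with at most `2 (r-1)²`
vertices. -/
theorem result (r : ℕ) (hr : 1 ≤ r) (H : PHyp r) (hint : Intersecting H)
    (hside : ∀ i, (sideSet H i).card ≠ 1) (hex : ∃ T, NontrivialCover H T) :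
    (∃ T, NontrivialCover H T ∧ T.card ≤ 2 * (r - 1) ^ 2) ∧ tauStar H ≤ 2 * (r - 1) ^ 2 := by
  suffices h : ∃ T, NontrivialCover H T ∧ T.card ≤ 2 * (r - 1) ^ 2 from
    ⟨h, by obtain ⟨T, hT, hc⟩ := h; exact (tauStar_le hT).trans hc⟩
  classical
  -- a maximal non-trivial cover
  obtain ⟨T, hT, hmax⟩ : ∃ T, NontrivialCover H T ∧
      ∀ T', NontrivialCover H T' → T'.card ≤ T.card := by
    obtain ⟨T0, hT0⟩ := hex
    obtain ⟨T, hT, hmax⟩ := exists_max_image (univ.filter fun T => NontrivialCover H T) card
      ⟨T0, by simpa using hT0⟩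
    refine ⟨T, (mem_filter.1 hT).2, fun T' hT' => hmax T' (by simpa using hT')⟩
  -- there is an edge
  obtain ⟨e0, he0⟩ : H.E.Nonempty := by
    by_contra h
    rw [not_nonempty_iff_eq_empty] at h
    apply hT.2.2 ⟨0, hr⟩
    intro v _
    obtain ⟨e, he, _⟩ := H.covered v
    rw [h] at he
    simp at he
  -- sides have at least two vertices
  have hside2 : ∀ i, 2 ≤ (sideSet H i).card := by
    intro i
    obtain ⟨v, hv, _⟩ := H.transversal e0 he0 i
    have h1 : 0 < (sideSet H i).card := card_pos.2 ⟨v, mem_filter.2 ⟨mem_univ _, hv.2⟩⟩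
    have := hside i
    omega
  -- traces on `T` and outside have at most `r - 1` elements
  have htr : ∀ e ∈ H.E, (e ∩ T).card ≤ r - 1 := by
    intro e he
    have h1 : e ∩ T ⊂ e := by
      refine ⟨inter_subset_left, fun h => hT.2.1 e he (fun v hv => (mem_inter.1 (h hv)).2)⟩
    have := card_lt_card h1
    rw [card_edge he] at this
    omega
  have hout : ∀ e ∈ H.E, (e \ T).card ≤ r - 1 := by
    intro e he
    have h1 := card_sdiff_add_card_inter e T
    have h2 : 0 < (e ∩ T).card := card_pos.2 (hT.1 e he)
    rw [card_edge he] at h1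
    omega
  -- a maximum family of edges with pairwise disjoint traces on `T`
  obtain ⟨M, hMf, hMmax⟩ := exists_max_image
    (H.E.powerset.filter fun M => ∀ e ∈ M, ∀ f ∈ M, e ≠ f → Disjoint (e ∩ T) (f ∩ T)) card
    ⟨∅, by simp⟩
  rw [mem_filter, mem_powerset] at hMf
  obtain ⟨hME, hdis⟩ := hMf
  rcases Nat.lt_or_ge (2 * (r - 1)) M.card with hM | hM
  · -- many disjoint traces
    -- every side meets `T`
    have hsideT : ∀ i, ∃ v ∈ T, H.side v = i := by
      intro i
      by_contra hcon
      push Not at hcon
      -- every vertex of the side lies in almost all members of `M`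
      have hkey : ∀ v, H.side v = i → (M.filter fun e => v ∉ e).card ≤ r - 1 := by
        intro v hv
        have hvT : v ∉ T := fun h => hcon v h hv
        -- `insert v T` is not a non-trivial cover
        have h1 : ¬ NontrivialCover H (insert v T) := by
          intro h
          have := hmax _ h
          rw [card_insert_of_notMem hvT] at this
          omega
        have h2 : IsCover H (insert v T) := by
          intro e he
          obtain ⟨w, hw⟩ := hT.1 e he
          rw [mem_inter] at hw
          exact ⟨w, mem_inter.2 ⟨hw.1, mem_insert_of_mem hw.2⟩⟩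
        have h3 : ∀ j, ¬ sideSet H j ⊆ insert v T := by
          intro j hj
          by_cases hji : j = i
          · subst hji
            have h4 : sideSet H j ⊆ {v} := by
              intro w hw
              rw [mem_singleton]
              rcases mem_insert.1 (hj hw) with h | h
              · exact h
              · exact absurd (mem_filter.1 hw).2 (hcon w h)
            have h5 := card_le_card h4
            have h6 := hside2 j
            rw [card_singleton] at h5
            omega
          · apply hT.2.2 j
            intro w hw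
            rcases mem_insert.1 (hj hw) with h | h
            · subst h
              exact absurd ((mem_filter.1 hw).2.symm.trans hv) hji
            · exact h
        obtain ⟨f, hf, hfT⟩ : ∃ f ∈ H.E, f ⊆ insert v T := by
          by_contra h
          push Not at h
          exact h1 ⟨h2, h, h3⟩
        -- members of `M` not containing `v` meet `f` inside `T`
        have h4 : (M.filter fun e => v ∉ e) ⊆
            M.filter fun e => ((e ∩ T) ∩ (f ∩ T)).Nonempty := by
          intro e he
          rw [mem_filter] at he ⊢
          refine ⟨he.1, ?_⟩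
          obtain ⟨w, hw⟩ := hint e (hME he.1) f hf
          rw [mem_inter] at hw
          have hwT : w ∈ T := by
            rcases mem_insert.1 (hfT hw.2) with h | h
            · exact absurd (h ▸ hw.1) he.2
            · exact h
          exact ⟨w, mem_inter.2 ⟨mem_inter.2 ⟨hw.1, hwT⟩, mem_inter.2 ⟨hw.2, hwT⟩⟩⟩
        exact (card_le_card h4).trans ((count_met M T (f ∩ T) hdis).trans (htr f hf))
      -- two vertices of the side
      obtain ⟨v, hv, v', hv', hvv⟩ := one_lt_card.1 (show 1 < (sideSet H i).card from hside2 i)
      have hvi := (mem_filter.1 hv).2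
      have hvi' := (mem_filter.1 hv').2
      have h5 : M ⊆ (M.filter fun e => v ∉ e) ∪ (M.filter fun e => v' ∉ e) := by
        intro e he
        rw [mem_union, mem_filter, mem_filter]
        by_contra h
        push Not at h
        have h6 := h.1 he
        have h7 := h.2 he
        obtain ⟨w, _, hw⟩ := H.transversal e (hME he) i
        exact hvv ((hw v ⟨h6, hvi⟩).trans (hw v' ⟨h7, hvi'⟩).symm)
      have h6 := (card_le_card h5).trans (card_union_le _ _)
      have h7 := hkey v hvi
      have h8 := hkey v' hvi'
      omega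
    -- the vertices outside `T` of large degree in `M`
    set d : H.V → ℕ := fun v => (M.filter fun e => v ∈ e).card with hd
    set Z : Finset H.V := univ.filter fun v => v ∉ T ∧ M.card - (r - 1) ≤ (r - 1) * d v with hZ
    have hZT : ∀ v ∈ Z, v ∉ T := fun v hv => (mem_filter.1 hv).2.1
    have hZcover : IsCover H Z := by
      intro f hf
      by_contra hcon
      rw [not_nonempty_iff_eq_empty] at hcon
      have h1 : ∀ v ∈ f \ T, (r - 1) * d v < M.card - (r - 1) := by
        intro v hv
        rw [mem_sdiff] at hv
        by_contra h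
        push Not at h
        have : v ∈ f ∩ Z := mem_inter.2 ⟨hv.1, mem_filter.2 ⟨mem_univ _, hv.2, h⟩⟩
        rw [hcon] at this
        simp at this
      -- members of `M` meeting `f` outside `T`
      have h2 : M ⊆ (M.filter fun e => ((e ∩ T) ∩ (f ∩ T)).Nonempty) ∪
          (f \ T).biUnion fun v => M.filter fun e => v ∈ e := by
        intro e he
        obtain ⟨w, hw⟩ := hint e (hME he) f hf
        rw [mem_inter] at hw
        rw [mem_union]
        by_cases hwT : w ∈ T
        · left
          exact mem_filter.2 ⟨he, ⟨w, mem_inter.2 ⟨mem_inter.2 ⟨hw.1, hwT⟩,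
            mem_inter.2 ⟨hw.2, hwT⟩⟩⟩⟩
        · right
          exact mem_biUnion.2 ⟨w, mem_sdiff.2 ⟨hw.2, hwT⟩, mem_filter.2 ⟨he, hw.1⟩⟩
      have h3 := (card_le_card h2).trans (card_union_le _ _)
      have h4 := (count_met M T (f ∩ T) hdis).trans (htr f hf)
      have h5 : ((f \ T).biUnion fun v => M.filter fun e => v ∈ e).card ≤ ∑ v ∈ f \ T, d v :=
        card_biUnion_le
      have h6 : M.card - (r - 1) ≤ ∑ v ∈ f \ T, d v := by omega
      have h7 : ∑ v ∈ f \ T, (r - 1) * d v ≤ ∑ v ∈ f \ T, (M.card - (r - 1) - 1) := by
        apply sum_le_sum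
        intro v hv
        have := h1 v hv
        omega
      rw [← mul_sum, sum_const, smul_eq_mul] at h7
      have h8 := hout f hf
      have h9 : (r - 1) * (M.card - (r - 1)) ≤ (r - 1) * (M.card - (r - 1) - 1) := by
        calc (r - 1) * (M.card - (r - 1)) ≤ (r - 1) * ∑ v ∈ f \ T, d v :=
              Nat.mul_le_mul_left _ h6
          _ ≤ (f \ T).card * (M.card - (r - 1) - 1) := h7
          _ ≤ (r - 1) * (M.card - (r - 1) - 1) := Nat.mul_le_mul_right _ h8
      rcases Nat.eq_zero_or_pos (r - 1) with h0 | h0
      · -- `r = 1`: then `f \ T` is empty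
        rw [h0] at h8 h6
        have h10 : f \ T = ∅ := card_eq_zero.1 (by omega)
        rw [h10, sum_empty] at h6
        omega
      · have h10 := Nat.le_of_mul_le_mul_left h9 h0
        omega
    have hZnt : NontrivialCover H Z := by
      refine ⟨hZcover, ?_, ?_⟩
      · intro e he hsub
        obtain ⟨w, hw⟩ := hT.1 e he
        rw [mem_inter] at hw
        exact hZT w (hsub hw.1) hw.2
      · intro i hsub
        obtain ⟨v, hv, hvi⟩ := hsideT i
        exact hZT v (hsub (mem_filter.2 ⟨mem_univ _, hvi⟩)) hv
    refine ⟨Z, hZnt, ?_⟩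
    -- counting
    have h1 : Z.card * (M.card - (r - 1)) ≤ (r - 1) * ∑ v ∈ Z, d v := by
      rw [mul_sum, ← smul_eq_mul, ← sum_const]
      apply sum_le_sum
      intro v hv
      exact (mem_filter.1 hv).2.2
    have h2 : ∑ v ∈ Z, d v ≤ M.card * (r - 1) := by
      have h3 : ∑ v ∈ Z, d v = ∑ e ∈ M, (Z.filter fun v => v ∈ e).card := by
        simp only [hd, card_filter]
        rw [sum_comm]
      rw [h3, ← smul_eq_mul, ← sum_const]
      apply sum_le_sum
      intro e he
      refine le_trans (card_le_card ?_) (hout e (hME he))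
      intro v hv
      rw [mem_filter] at hv
      exact mem_sdiff.2 ⟨hv.2, hZT v hv.1⟩
    have h3 : M.card ≤ 2 * (M.card - (r - 1)) := by omega
    have h4 : Z.card * (M.card - (r - 1)) ≤ (2 * (r - 1) ^ 2) * (M.card - (r - 1)) := by
      calc Z.card * (M.card - (r - 1)) ≤ (r - 1) * ∑ v ∈ Z, d v := h1
        _ ≤ (r - 1) * (M.card * (r - 1)) := Nat.mul_le_mul_left _ h2
        _ ≤ (r - 1) * ((2 * (M.card - (r - 1))) * (r - 1)) :=
            Nat.mul_le_mul_left _ (Nat.mul_le_mul_right _ h3)
        _ = (2 * (r - 1) ^ 2) * (M.card - (r - 1)) := by ring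
    exact Nat.le_of_mul_le_mul_right h4 (by omega)
  · -- few disjoint traces: the union of the traces is a cover
    set T' : Finset H.V := M.biUnion fun e => e ∩ T with hT'
    have hT'T : T' ⊆ T := by
      intro v hv
      obtain ⟨e, _, hve⟩ := mem_biUnion.1 hv
      exact (mem_inter.1 hve).2
    have hcover : IsCover H T' := by
      intro f hf
      by_contra hcon
      rw [not_nonempty_iff_eq_empty] at hcon
      have hfd : ∀ e ∈ M, Disjoint (f ∩ T) (e ∩ T) := by
        intro e he
        rw [Finset.disjoint_left]
        intro v hv hv'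
        have : v ∈ f ∩ T' := mem_inter.2 ⟨(mem_inter.1 hv).1, mem_biUnion.2 ⟨e, he, hv'⟩⟩
        rw [hcon] at this
        simp at this
      have hfM : f ∉ M := by
        intro h
        have h1 := hfd f h
        rw [disjoint_self] at h1
        obtain ⟨v, hv⟩ := hT.1 f hf
        rw [h1] at hv
        simp at hv
      have h2 := hMmax (insert f M) (by
        rw [mem_filter, mem_powerset]
        refine ⟨insert_subset hf hME, ?_⟩
        intro e he g hg hne
        rcases mem_insert.1 he with he' | he' <;> rcases mem_insert.1 hg with hg' | hg'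
        · exact absurd (he'.trans hg'.symm) hne
        · rw [he']; exact hfd g hg'
        · rw [hg']; exact (hfd e he').symm
        · exact hdis e he' g hg' hne)
      rw [card_insert_of_notMem hfM] at h2
      omega
    refine ⟨T', nontrivial_of_subset hT hT'T hcover, ?_⟩
    calc T'.card ≤ M.card * (r - 1) :=
          card_biUnion_le_card_mul _ _ _ fun e he => htr e (hME he)
      _ ≤ (2 * (r - 1)) * (r - 1) := Nat.mul_le_mul_right _ hM
      _ = 2 * (r - 1) ^ 2 := by ring

end Pool.Agent.Results.MP_2c613a_co.QuadraticBound
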